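import Pool.Agent.W712.RP.Stm

set_option autoImplicit false

namespace Pool.Agent.W800.RP.L1

open MeasureTheory Set Filter Topology
open scoped ENNReal
open Pool.Agent.W712.RP

variable {k : ℕ}

abbrev Vk (k : ℕ) : Type := EuclideanSpace ℝ (Fin k)

/-- a positive definite form on a hyperplane is uniformly so -/
theorem exists_lam (ν : (Vk k)) (q : (Vk k) →L[ℝ] (Vk k) →L[ℝ] ℝ)
    (hq : ∀ w : (Vk k), inner ℝ w ν = 0 → w ≠ 0 → 0 < q w w) :
    ∃ lam : ℝ, 0 < lam ∧ ∀ w : (Vk k), inner ℝ w ν = 0 → lam * ‖w‖ ^ 2 ≤ q w w := by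
  have hcq : Continuous fun w : (Vk k) => q w w := q.continuous.clm_apply continuous_id
  have hcomp : IsCompact (Metric.sphere (0 : (Vk k)) 1 ∩ {w | inner ℝ w ν = 0}) :=
    (isCompact_sphere 0 1).inter_right (isClosed_eq (by fun_prop) continuous_const)
  have hscale : ∀ lam : ℝ, (∀ w ∈ Metric.sphere (0 : (Vk k)) 1 ∩ {w | inner ℝ w ν = 0}, lam ≤ q w w) →
      ∀ w : (Vk k), inner ℝ w ν = 0 → lam * ‖w‖ ^ 2 ≤ q w w := by
    intro lam h w hw
    by_cases h0 : w = 0
    · subst h0; simp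
    have hn : 0 < ‖w‖ := norm_pos_iff.2 h0
    have h1 := h (‖w‖⁻¹ • w) ⟨by
      rw [mem_sphere_zero_iff_norm, norm_smul, norm_inv, norm_norm, inv_mul_cancel₀ hn.ne'], by
      show inner ℝ (‖w‖⁻¹ • w) ν = 0
      rw [real_inner_smul_left, hw, mul_zero]⟩
    have h2 : q (‖w‖⁻¹ • w) (‖w‖⁻¹ • w) = (‖w‖ ^ 2)⁻¹ * q w w := by
      simp only [map_smul, ContinuousLinearMap.smul_apply, smul_eq_mul]
      rw [sq, mul_inv]
      ring
    rw [h2, inv_mul_eq_div, le_div_iff₀ (by positivity)] at h1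
    exact h1
  rcases (Metric.sphere (0 : (Vk k)) 1 ∩ {w | inner ℝ w ν = 0}).eq_empty_or_nonempty with h | h
  · exact ⟨1, one_pos, hscale 1 (by rw [h]; simp)⟩
  · obtain ⟨w0, hw0, hmin⟩ := hcomp.exists_isMinOn h hcq.continuousOn
    refine ⟨q w0 w0, hq w0 hw0.2 ?_, hscale _ fun w hw => hmin hw⟩
    intro h0
    have := hw0.1
    rw [h0, mem_sphere_zero_iff_norm, norm_zero] at this
    norm_num at this

/-- near boundary points -/
theorem step1 (K : Set (Vk k)) (p ν : (Vk k)) (q : (Vk k) →L[ℝ] (Vk k) →L[ℝ] ℝ) (hν : ‖ν‖ = 1)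
    (hneg : ∀ y ∈ K, inner ℝ (y - p) ν ≤ 0) (hKc : IsClosed K)
    (hq : ∀ w : (Vk k), inner ℝ w ν = 0 → w ≠ 0 → 0 < q w w)
    (ho : (fun y => inner ℝ (p - y) ν - q (y - p) (y - p) / 2) =o[𝓝[frontier K] p]
      (fun y => ‖y - p‖ ^ 2)) :
    ∃ c1 η : ℝ, 0 < c1 ∧ 0 < η ∧ ∀ y ∈ frontier K, ‖y - p‖ < η →
      c1 * ‖(y - p) + (inner ℝ (p - y) ν : ℝ) • ν‖ ^ 2 ≤ inner ℝ (p - y) ν := by
  obtain ⟨lam, hlam, hpos⟩ := exists_lam ν q hq
  set M := ‖q‖ + 1 with hM
  have hM0 : 0 < M := by positivity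
  have hqb : ∀ a b : (Vk k), |q a b| ≤ M * ‖a‖ * ‖b‖ := by
    intro a b
    refine (q.le_opNorm₂ a b).trans ?_
    have : ‖q‖ ≤ M := by rw [hM]; linarith
    gcongr
  have ho' := (Asymptotics.isLittleO_iff.1 ho) (show 0 < lam / 4 by positivity)
  rw [eventually_nhdsWithin_iff] at ho'
  obtain ⟨η1, hη1, h1⟩ := Metric.eventually_nhds_iff.1 ho'
  set η := min η1 (1 / (2 * (2 * M + M / 2 + lam / 4))) with hη
  have hη0 : 0 < η := lt_min hη1 (by positivity)
  refine ⟨lam / 6, η, by positivity, hη0, fun y hy hyη => ?_⟩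
  have hyK : y ∈ K := hKc.frontier_subset hy
  set h := (inner ℝ (p - y) ν : ℝ) with hh
  set w := (y - p) + h • ν with hw
  have hh0 : 0 ≤ h := by
    have := hneg y hyK
    rw [hh, ← neg_sub, inner_neg_left]
    linarith
  have hνν : (inner ℝ ν ν : ℝ) = 1 := by rw [real_inner_self_eq_norm_sq, hν, one_pow]
  have hwν : (inner ℝ w ν : ℝ) = 0 := by
    rw [hw, inner_add_left, real_inner_smul_left, hνν, hh, ← neg_sub y p, inner_neg_left]
    ring
  have hv : y - p = w - h • ν := by rw [hw]; abel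
  have hvn : ‖y - p‖ ^ 2 = ‖w‖ ^ 2 + h ^ 2 := by
    rw [hv, norm_sub_sq_real, real_inner_smul_right, hwν, norm_smul, hν, Real.norm_eq_abs,
      mul_one, sq_abs]
    ring
  have hwle : ‖w‖ ≤ ‖y - p‖ := by
    apply le_of_sq_le_sq _ (norm_nonneg _)
    rw [hvn]; nlinarith [sq_nonneg h]
  have hhle : h ≤ ‖y - p‖ := by
    apply le_of_sq_le_sq _ (norm_nonneg _)
    rw [hvn]; nlinarith [sq_nonneg ‖w‖]
  have h2 := h1 (show dist y p < η1 by rw [dist_eq_norm]; exact hyη.trans_le (min_le_left _ _)) hy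
  rw [Real.norm_eq_abs, Real.norm_eq_abs, abs_of_nonneg (sq_nonneg ‖y - p‖), hvn] at h2
  have h3 : q (y - p) (y - p) = q w w - h * (q w ν + q ν w) + h ^ 2 * q ν ν := by
    rw [hv]
    simp only [map_sub, map_smul, ContinuousLinearMap.sub_apply, ContinuousLinearMap.smul_apply,
      smul_eq_mul]
    ring
  have h4 := hpos w hwν
  have h5 := abs_le.1 (hqb w ν)
  have h6 := abs_le.1 (hqb ν w)
  have h7 := abs_le.1 (hqb ν ν)
  rw [hν] at h5 h6 h7
  have h8 := (abs_le.1 h2).1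
  have h9 : lam * ‖w‖ ^ 2 - 2 * M * h * ‖w‖ - M * h ^ 2 ≤ q (y - p) (y - p) := by
    rw [h3]
    have e1 : h * (q w ν + q ν w) ≤ h * (2 * M * ‖w‖) :=
      mul_le_mul_of_nonneg_left (by linarith [h5.2, h6.2]) hh0
    have e2 : -(M * h ^ 2) ≤ h ^ 2 * q ν ν := by nlinarith [sq_nonneg h, h7.1]
    linarith
  have hyη2 : ‖y - p‖ * (2 * M + M / 2 + lam / 4) ≤ 1 / 2 := by
    have e1 : ‖y - p‖ ≤ 1 / (2 * (2 * M + M / 2 + lam / 4)) := hyη.le.trans (min_le_right _ _)
    rw [le_div_iff₀ (by positivity)] at e1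
    linarith
  have h10 : M * ‖w‖ + (M / 2 + lam / 4) * h ≤ 1 / 2 := by
    have e1 : M * ‖w‖ ≤ M * ‖y - p‖ := mul_le_mul_of_nonneg_left hwle hM0.le
    have e2 : (M / 2 + lam / 4) * h ≤ (M / 2 + lam / 4) * ‖y - p‖ :=
      mul_le_mul_of_nonneg_left hhle (by positivity)
    nlinarith [norm_nonneg (y - p)]
  have h11 : h * (M * ‖w‖ + (M / 2 + lam / 4) * h) ≤ h * (1 / 2) := mul_le_mul_of_nonneg_left h10 hh0
  nlinarith

theorem l1 : S_L1 := by
  intro k hk K hK p hp
  obtain ⟨ν, q, hν, hneg, hq, ho⟩ := hK.curved p hp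
  have hKc : IsClosed K := hK.compact.isClosed
  obtain ⟨c1, η, hc1, hη, hst1⟩ := step1 K p ν q hν hneg hKc hq ho
  have hpK : p ∈ K := hKc.frontier_subset hp
  have hνν : (inner ℝ ν ν : ℝ) = 1 := by rw [real_inner_self_eq_norm_sq, hν, one_pow]
  have hh0 : ∀ y ∈ K, 0 ≤ (inner ℝ (p - y) ν : ℝ) := by
    intro y hy
    have := hneg y hy
    rw [← neg_sub, inner_neg_left]
    linarith
  -- all points near p
  set η2 := min (η / 2) 1 with hη2
  have hη20 : 0 < η2 := lt_min (by positivity) one_pos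
  set A := c1⁻¹ + 1 with hA
  have hA0 : 0 < A := by positivity
  have hst2 : ∀ y ∈ K, ‖y - p‖ < η2 → ‖y - p‖ ^ 2 ≤ A * inner ℝ (p - y) ν := by
    intro y hy hyη
    set h := (inner ℝ (p - y) ν : ℝ) with hh
    have hh0' := hh0 y hy
    have hhle : h ≤ ‖y - p‖ := by
      have := real_inner_le_norm (p - y) ν
      rw [hν, mul_one, norm_sub_rev] at this
      exact this
    -- the exit point
    obtain ⟨b, hb0, hbK, hbmax⟩ : ∃ b : ℝ, 0 ≤ b ∧ y + b • ν ∈ K ∧ ∀ b' : ℝ, b < b' → y + b' • ν ∉ K := by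
      have hcl : IsClosed {b : ℝ | y + b • ν ∈ K} := hKc.preimage (by fun_prop)
      have hbd : Bornology.IsBounded {b : ℝ | y + b • ν ∈ K} := by
        obtain ⟨R, hR⟩ := hK.compact.isBounded.exists_norm_le
        rw [isBounded_iff_forall_norm_le]
        refine ⟨R + ‖y‖, fun b hb => ?_⟩
        have h1 := hR _ hb
        have h2 : b • ν = (y + b • ν) - y := by abel
        have h3 : ‖b‖ = ‖b • ν‖ := by rw [norm_smul, hν, mul_one]
        rw [h3, h2]
        exact (norm_sub_le _ _).trans (by linarith)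
      have hcomp : IsCompact {b : ℝ | y + b • ν ∈ K} := Metric.isCompact_of_isClosed_isBounded hcl hbd
      have h0 : (0 : ℝ) ∈ {b : ℝ | y + b • ν ∈ K} := by simpa using hy
      obtain ⟨b, hb, hmax⟩ := hcomp.exists_isGreatest ⟨0, h0⟩
      exact ⟨b, hmax h0, hb, fun b' hb' hmem => absurd (hmax hmem) (not_le.2 hb')⟩
    set y' := y + b • ν with hy'
    have hfr : y' ∈ frontier K := by
      rw [hKc.frontier_eq]
      refine ⟨hbK, fun hint => ?_⟩
      have hcont : Continuous fun t : ℝ => y + t • ν := by fun_prop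
      have hnb : ∀ᶠ t : ℝ in 𝓝 b, y + t • ν ∈ K :=
        hcont.continuousAt.eventually (mem_interior_iff_mem_nhds.1 hint)
      obtain ⟨t, ht1, ht2⟩ := ((hnb.filter_mono nhdsWithin_le_nhds).and
        (self_mem_nhdsWithin : Ioi b ∈ 𝓝[>] b)).exists
      exact hbmax t ht2 ht1
    have hh' : (inner ℝ (p - y') ν : ℝ) = h - b := by
      rw [hy', show p - (y + b • ν) = (p - y) - b • ν by abel, inner_sub_left, real_inner_smul_left,
        hνν, mul_one]
    have hbh : b ≤ h := by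
      have := hh0 y' hbK
      rw [hh'] at this
      linarith
    have hy'p : ‖y' - p‖ < η := by
      have e1 : y' - p = (y - p) + b • ν := by rw [hy']; abel
      rw [e1]
      have e2 := norm_add_le (y - p) (b • ν)
      rw [norm_smul, hν, mul_one, Real.norm_eq_abs, abs_of_nonneg hb0] at e2
      have e3 : ‖y - p‖ < η / 2 := hyη.trans_le (min_le_left _ _)
      linarith
    have h3 := hst1 y' hfr hy'p
    have e4 : y' - p + (inner ℝ (p - y') ν : ℝ) • ν = (y - p) + h • ν := by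
      rw [hh', hy', sub_smul]; abel
    rw [e4, hh'] at h3
    set w := (y - p) + h • ν with hw
    have hwν : (inner ℝ w ν : ℝ) = 0 := by
      rw [hw, inner_add_left, real_inner_smul_left, hνν, hh, ← neg_sub y p, inner_neg_left]
      ring
    have hv : y - p = w - h • ν := by rw [hw]; abel
    have hvn : ‖y - p‖ ^ 2 = ‖w‖ ^ 2 + h ^ 2 := by
      rw [hv, norm_sub_sq_real, real_inner_smul_right, hwν, norm_smul, hν, Real.norm_eq_abs,
        mul_one, sq_abs]
      ring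
    have hh1 : h ≤ 1 := hhle.trans (hyη.le.trans (min_le_right _ _))
    have h4 : ‖w‖ ^ 2 ≤ c1⁻¹ * h := by
      rw [inv_mul_eq_div, le_div_iff₀ hc1]
      nlinarith
    rw [hvn, hA]
    nlinarith
  -- far points
  obtain ⟨R, hR⟩ := hK.compact.isBounded.exists_norm_le
  set Δ := R + ‖p‖ + 1 with hΔ
  have hR0 : 0 ≤ R := (norm_nonneg p).trans (hR p hpK)
  have hΔ0 : 0 < Δ := by positivity
  set B := max A (2 * A * Δ / η2) with hB
  have hB0 : 0 < B := lt_max_of_lt_left hA0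
  refine ⟨ν, B / 2, hν, by positivity, fun y hy => ?_⟩
  have e : 2 * (B / 2) * (inner ℝ (p - y) ν : ℝ) = B * inner ℝ (p - y) ν := by ring
  rw [e]
  rcases lt_or_ge ‖y - p‖ η2 with hlt | hge
  · refine (hst2 y hy hlt).trans ?_
    exact mul_le_mul_of_nonneg_right (le_max_left _ _) (hh0 y hy)
  · have hn0 : 0 < ‖y - p‖ := hη20.trans_le hge
    set t := (η2 / 2) / ‖y - p‖ with ht
    have ht0 : 0 < t := by positivity
    have ht1 : t ≤ 1 := by
      rw [ht, div_le_one hn0]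
      linarith
    set z := p + t • (y - p) with hz
    have hzK : z ∈ K := by
      have h1 := hK.convex hpK hy (a := 1 - t) (b := t) (by linarith) ht0.le (by ring)
      have h2 : (1 - t) • p + t • y = z := by
        rw [hz, sub_smul, one_smul, smul_sub]; abel
      rwa [h2] at h1
    have hzp : z - p = t • (y - p) := by rw [hz]; abel
    have hzn : ‖z - p‖ = η2 / 2 := by
      rw [hzp, norm_smul, Real.norm_eq_abs, abs_of_pos ht0, ht]
      field_simp
    have h1 := hst2 z hzK (by rw [hzn]; linarith)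
    have h2 : (inner ℝ (p - z) ν : ℝ) = t * inner ℝ (p - y) ν := by
      rw [show p - z = t • (p - y) by rw [← neg_sub z p, hzp, ← smul_neg, neg_sub],
        real_inner_smul_left]
    rw [hzn, h2] at h1
    have h3 : ‖y - p‖ ≤ Δ := by
      refine (norm_sub_le _ _).trans ?_
      have := hR y hy
      rw [hΔ]; linarith
    have h4 : (η2 / 2) ^ 2 * ‖y - p‖ ≤ A * (η2 / 2) * inner ℝ (p - y) ν := by
      have h5 := mul_le_mul_of_nonneg_right h1 hn0.le
      have h6 : A * (t * inner ℝ (p - y) ν) * ‖y - p‖ = A * (η2 / 2) * inner ℝ (p - y) ν := by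
        rw [ht]; field_simp
      rwa [h6] at h5
    have h7 : (η2 / 2) * ‖y - p‖ ≤ A * inner ℝ (p - y) ν := by
      have h8 : (η2 / 2) * ((η2 / 2) * ‖y - p‖) ≤ (η2 / 2) * (A * inner ℝ (p - y) ν) := by
        linarith [h4]
      exact le_of_mul_le_mul_left h8 (by positivity)
    have h9 : ‖y - p‖ ^ 2 ≤ 2 * A * Δ / η2 * inner ℝ (p - y) ν := by
      rw [div_mul_eq_mul_div, le_div_iff₀ hη20]
      have h10 : ‖y - p‖ ^ 2 ≤ Δ * ‖y - p‖ := by nlinarith
      nlinarith [mul_le_mul_of_nonneg_left h7 hΔ0.le]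
    exact h9.trans (mul_le_mul_of_nonneg_right (le_max_right _ _) (hh0 y hy))

end Pool.Agent.W800.RP.L1
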