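import Pool.Agent.W712.RP.Stm

set_option autoImplicit false

namespace Pool.Agent.W800.RP.PL

open MeasureTheory Set Filter Topology
open scoped ENNReal
open Pool.Agent.W712.RP

/-- the product of the conditioned measures -/
theorem pi_cond {m : ℕ} {Ω : Fin m → Type} [∀ i, MeasurableSpace (Ω i)] (P : ∀ i, Measure (Ω i))
    [∀ i, IsProbabilityMeasure (P i)] (S : ∀ i, Set (Ω i)) (hS : ∀ i, MeasurableSet (S i))
    (h0 : ∀ i, P i (S i) ≠ 0) (B : Set (∀ i, Ω i)) (hB : MeasurableSet B) :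
    Measure.pi (fun i => (P i (S i))⁻¹ • (P i).restrict (S i)) B =
      (∏ i, (P i (S i))⁻¹) * Measure.pi P (B ∩ Set.pi univ S) := by
  have hsf : ∀ i, SigmaFinite ((P i (S i))⁻¹ • (P i).restrict (S i)) := by
    intro i
    have : IsFiniteMeasure ((P i (S i))⁻¹ • (P i).restrict (S i)) := by
      refine ⟨?_⟩
      rw [Measure.smul_apply, smul_eq_mul]
      exact ENNReal.mul_lt_top (ENNReal.inv_lt_top.2 (pos_iff_ne_zero.2 (h0 i))) (measure_lt_top _ _)
    infer_instance
  have h1 : Measure.pi (fun i => (P i (S i))⁻¹ • (P i).restrict (S i)) =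
      (∏ i, (P i (S i))⁻¹) • (Measure.pi P).restrict (Set.pi univ S) := by
    refine Measure.pi_eq fun s hs => ?_
    rw [Measure.smul_apply, Measure.restrict_apply (MeasurableSet.univ_pi hs), smul_eq_mul,
      ← Set.pi_inter_distrib, Measure.pi_pi, ← Finset.prod_mul_distrib]
    refine Finset.prod_congr rfl fun i _ => ?_
    rw [Measure.smul_apply, Measure.restrict_apply (hs i), smul_eq_mul]
  rw [h1, Measure.smul_apply, Measure.restrict_apply hB, smul_eq_mul]

theorem pl : S_WL → S_WG → S_PR → S_PL := by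
  intro hWL hWG hPR m hm d hd K hK hlow
  obtain ⟨hbody, -, hprob, hunif, -⟩ := hPR m d K hK
  choose T c A B hTm hc hA hB hTpos hTm2 hcap using hlow
  have hne : Nonempty (Fin m) := ⟨⟨0, hm⟩⟩
  obtain ⟨ic, hic⟩ := Finite.exists_min c
  obtain ⟨iA, hiA⟩ := Finite.exists_max A
  obtain ⟨iB, hiB⟩ := Finite.exists_max B
  set c0 := c ic with hc0
  set A0 := A iA with hA0
  set B0 := max 1 (B iB) with hB0
  have hc0p : 0 < c0 := hc _
  have hA0p : 0 < A0 := hA _
  have hB01 : 1 ≤ B0 := le_max_left _ _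
  set h : ℝ := m * A0 with hh
  have hh0 : 0 ≤ h := by positivity
  let e : Fin m → ℝ := fun i => ((d i : ℝ) + 1) / 2
  have he0 : ∀ i, 0 < e i := fun i => by simp only [e]; positivity
  let a : Fin m → ℝ := fun i => 2 / ((d i : ℝ) + 1)
  have ha0 : ∀ i, 0 < a i := fun i => by simp only [a]; positivity
  have ha1 : ∀ i, a i ≤ 1 := by
    intro i
    simp only [a]
    rw [div_le_one (by positivity)]
    have : (1 : ℝ) ≤ d i := by exact_mod_cast hd i
    linarith
  have hae : ∀ i, a i * e i = 1 := fun i => by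
    simp only [a, e]
    have : ((d i : ℝ) + 1) ≠ 0 := by positivity
    field_simp
  set C1 : ℝ := ∏ i, B0 * (1 + h) ^ (e i) with hC1
  have hC11 : 1 ≤ C1 := by
    rw [hC1]
    have h1 : ∀ i ∈ (Finset.univ : Finset (Fin m)), (1 : ℝ) ≤ B0 * (1 + h) ^ (e i) := by
      intro i _
      have h2 : (1 : ℝ) ≤ (1 + h) ^ (e i) := Real.one_le_rpow (by linarith) (he0 i).le
      nlinarith
    calc (1 : ℝ) = ∏ i : Fin m, (1 : ℝ) := by simp
      _ ≤ _ := Finset.prod_le_prod (fun _ _ => zero_le_one) h1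
  have hC10 : 0 < C1 := by linarith
  let P : ∀ i, Measure (EuclideanSpace ℝ (Fin (d i))) := fun i => unif volume (K i)
  have hP : ∀ i, IsProbabilityMeasure (P i) := hprob
  let S : ∀ i, Set (EuclideanSpace ℝ (Fin (d i))) := fun i => {z | T i z ≤ 1}
  have hSm : ∀ i, MeasurableSet (S i) := fun i => measurableSet_le (hTm i) measurable_const
  have hPS : ∀ i, ENNReal.ofReal c0 ≤ P i (S i) := by
    intro i
    have h1 := hTm2 i 1 one_pos le_rfl
    rw [mul_one] at h1
    exact (ENNReal.ofReal_le_ofReal (hic i)).trans h1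
  have hc0e : ENNReal.ofReal c0 ≠ 0 := by
    rw [Ne, ENNReal.ofReal_eq_zero, not_le]; exact hc0p
  have hPS0 : ∀ i, P i (S i) ≠ 0 := fun i h0 => hc0e (le_antisymm (h0 ▸ hPS i) bot_le)
  let f : ∀ i, EuclideanSpace ℝ (Fin (d i)) → ℝ := fun i z => (T i z) ^ (e i)
  have hfm : ∀ i, Measurable (f i) := fun i => (hTm i).pow_const _
  have hf0 : ∀ i z, 0 ≤ f i z := fun i z => Real.rpow_nonneg (hTpos i z).le _
  have hLm : MeasurableSet (prodBody K) := hbody.compact.isClosed.measurableSet
  have hLnull : unif volume (prodBody K) (prodBody K)ᶜ = 0 := by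
    unfold unif
    rw [Measure.smul_apply, Measure.restrict_apply hLm.compl, compl_inter_self, measure_empty,
      smul_zero]
  -- caps
  have hcaps : ∀ z ∈ prodBody K, (∀ i, T i (z i) ≤ 1) →
      ∃ l : (∀ i, EuclideanSpace ℝ (Fin (d i))) →L[ℝ] ℝ,
        unif volume (prodBody K) {y | l z ≤ l y} ≤ ENNReal.ofReal (C1 * ∏ i, f i (z i)) := by
    intro z hz hT1
    have hz' : ∀ i, z i ∈ K i := fun i => hz i (mem_univ i)
    choose ν hν1 hν2 using fun i => hcap i (z i) (hz' i) (hT1 i)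
    let l : (∀ i, EuclideanSpace ℝ (Fin (d i))) →L[ℝ] ℝ :=
      ∑ i, (T i (z i))⁻¹ • (ν i).comp (ContinuousLinearMap.proj i)
    have hl : ∀ y, l y = ∑ i, (T i (z i))⁻¹ * ν i (y i) := by
      intro y
      simp only [l, ContinuousLinearMap.sum_apply]
      rfl
    refine ⟨l, ?_⟩
    have h1 : {y | l z ≤ l y} ⊆ (prodBody K)ᶜ ∪
        Set.pi univ (fun i => {y | -(h * T i (z i)) ≤ ν i (y - z i)}) := by
      intro y hy
      by_cases hyK : y ∈ prodBody K
      · right
        intro i _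
        have hy' : ∀ i, y i ∈ K i := fun i => hyK i (mem_univ i)
        have h2 : 0 ≤ ∑ j, (T j (z j))⁻¹ * ν j (y j - z j) := by
          have h3 : l z ≤ l y := hy
          rw [hl, hl] at h3
          have h4 : ∑ j, (T j (z j))⁻¹ * ν j (y j - z j) =
              ∑ j, (T j (z j))⁻¹ * ν j (y j) - ∑ j, (T j (z j))⁻¹ * ν j (z j) := by
            rw [← Finset.sum_sub_distrib]
            refine Finset.sum_congr rfl fun j _ => ?_
            rw [map_sub]; ring
          rw [h4]; linarith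
        have h5 : ∀ j, (T j (z j))⁻¹ * ν j (y j - z j) ≤ A0 := by
          intro j
          rw [inv_mul_le_iff₀ (hTpos j _)]
          refine (hν1 j (y j) (hy' j)).trans ?_
          rw [mul_comm]
          exact mul_le_mul_of_nonneg_left (hiA j) (hTpos j _).le
        have h6 : ∑ j ∈ Finset.univ.erase i, (T j (z j))⁻¹ * ν j (y j - z j) ≤ m * A0 := by
          refine (Finset.sum_le_sum fun j _ => h5 j).trans ?_
          rw [Finset.sum_const, nsmul_eq_mul]
          refine mul_le_mul_of_nonneg_right ?_ hA0p.le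
          have : (Finset.univ.erase i).card ≤ m := by
            refine (Finset.card_le_univ _).trans ?_
            simp
          exact_mod_cast this
        rw [← Finset.add_sum_erase _ _ (Finset.mem_univ i)] at h2
        have h7 : -h ≤ (T i (z i))⁻¹ * ν i (y i - z i) := by rw [hh]; linarith
        show -(h * T i (z i)) ≤ ν i (y i - z i)
        rw [← div_eq_inv_mul, le_div_iff₀ (hTpos i _)] at h7
        linarith
      · exact Or.inl hyK
    refine (measure_mono h1).trans ((measure_union_le _ _).trans ?_)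
    rw [hLnull, zero_add, hunif, Measure.pi_pi]
    have h8 : ∀ i, P i {y | -(h * T i (z i)) ≤ ν i (y - z i)} ≤
        ENNReal.ofReal (B0 * ((1 + h) * T i (z i)) ^ (e i)) := by
      intro i
      refine (hν2 i h hh0).trans (ENNReal.ofReal_le_ofReal ?_)
      refine mul_le_mul_of_nonneg_right ((hiB i).trans (le_max_right _ _)) ?_
      exact Real.rpow_nonneg (mul_nonneg (by linarith) (hTpos i _).le) _
    refine (Finset.prod_le_prod' fun i _ => h8 i).trans ?_
    rw [← ENNReal.ofReal_prod_of_nonneg]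
    · refine ENNReal.ofReal_le_ofReal (le_of_eq ?_)
      rw [hC1, ← Finset.prod_mul_distrib]
      refine Finset.prod_congr rfl fun i _ => ?_
      simp only [f]
      rw [Real.mul_rpow (by linarith) (hTpos i _).le]
      ring
    · intro i _
      exact mul_nonneg (by linarith)
        (Real.rpow_nonneg (mul_nonneg (by linarith) (hTpos i _).le) _)
  -- the sets
  refine ⟨c0 ^ m * c0 ^ m / C1, by positivity, fun t ht ht1 => ?_⟩
  have htC : 0 < t / C1 := by positivity
  set Bs : Set (∀ i, EuclideanSpace ℝ (Fin (d i))) := {z | ∏ i, f i (z i) ≤ t / C1} with hBs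
  have hBsm : MeasurableSet Bs := by
    refine measurableSet_le ?_ measurable_const
    exact Finset.measurable_prod _ fun i _ => (hfm i).comp (measurable_pi_apply i)
  have hpiS : MeasurableSet (Set.pi univ S) := MeasurableSet.univ_pi hSm
  refine ⟨prodBody K ∩ (Bs ∩ Set.pi univ S), hLm.inter (hBsm.inter hpiS), ?_, ?_⟩
  · rintro z ⟨hzK, hzB, hzS⟩
    obtain ⟨l, hl⟩ := hcaps z hzK fun i => hzS i (mem_univ i)
    refine ⟨l, hl.trans (ENNReal.ofReal_le_ofReal ?_)⟩
    have h1 : ∏ i, f i (z i) ≤ t / C1 := hzB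
    rw [le_div_iff₀ hC10] at h1
    linarith
  · -- mass
    let P' : ∀ i, Measure (EuclideanSpace ℝ (Fin (d i))) :=
      fun i => (P i (S i))⁻¹ • (P i).restrict (S i)
    have hP' : ∀ i, IsProbabilityMeasure (P' i) := by
      intro i
      refine ⟨?_⟩
      simp only [P']
      rw [Measure.smul_apply, Measure.restrict_apply_univ, smul_eq_mul]
      exact ENNReal.inv_mul_cancel (hPS0 i) (measure_ne_top _ _)
    have hmass : ∀ i, ∀ s : ℝ, 0 < s → s ≤ 1 →
        ENNReal.ofReal (c0 * s ^ a i) ≤ P' i {ω | f i ω ≤ s} := by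
      intro i s hs hs1
      have hsa : 0 < s ^ a i := Real.rpow_pos_of_pos hs _
      have hsa1 : s ^ a i ≤ 1 := Real.rpow_le_one hs.le hs1 (ha0 i).le
      have h1 := hTm2 i (s ^ a i) hsa hsa1
      have h2 : ENNReal.ofReal (c0 * s ^ a i) ≤ P i {z | T i z ≤ s ^ a i} :=
        (ENNReal.ofReal_le_ofReal (mul_le_mul_of_nonneg_right (hic i) hsa.le)).trans h1
      refine h2.trans ?_
      have h3 : {z | T i z ≤ s ^ a i} ⊆ {ω | f i ω ≤ s} ∩ S i := by
        intro z hz
        have hz' : T i z ≤ s ^ a i := hz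
        refine ⟨?_, hz'.trans hsa1⟩
        show (T i z) ^ (e i) ≤ s
        calc (T i z) ^ (e i) ≤ (s ^ a i) ^ (e i) :=
              Real.rpow_le_rpow (hTpos i z).le hz' (he0 i).le
          _ = s := by rw [← Real.rpow_mul hs.le, hae, Real.rpow_one]
      refine (measure_mono h3).trans ?_
      have h4 : P' i {ω | f i ω ≤ s} = (P i (S i))⁻¹ * P i ({ω | f i ω ≤ s} ∩ S i) := by
        simp only [P']
        rw [Measure.smul_apply, Measure.restrict_apply (measurableSet_le (hfm i) measurable_const),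
          smul_eq_mul]
      rw [h4]
      have h5 : 1 ≤ (P i (S i))⁻¹ := ENNReal.one_le_inv.2 prob_le_one
      calc P i ({ω | f i ω ≤ s} ∩ S i) = 1 * P i ({ω | f i ω ≤ s} ∩ S i) := (one_mul _).symm
        _ ≤ _ := mul_le_mul_left h5 _
    have h1 := hWL m (fun i => EuclideanSpace ℝ (Fin (d i))) P' f hfm hf0 a ha0 c0 hc0p hmass
      (t / C1) htC
    have h2 : Measure.pi P' {ω | ∏ i, f i (ω i) ≤ t / C1} =
        (∏ i, (P i (S i))⁻¹) * Measure.pi P (Bs ∩ Set.pi univ S) := pi_cond P S hSm hPS0 Bs hBsm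
    rw [h2] at h1
    have h3 : (∏ i, (P i (S i))⁻¹) ≤ ((ENNReal.ofReal c0)⁻¹) ^ m := by
      refine (Finset.prod_le_prod' fun i _ => ENNReal.inv_le_inv.2 (hPS i)).trans ?_
      rw [Finset.prod_const, Finset.card_univ, Fintype.card_fin]
    have h4 : ENNReal.ofReal (c0 ^ m) * Wf a (t / C1) ≤
        ((ENNReal.ofReal c0)⁻¹) ^ m * Measure.pi P (Bs ∩ Set.pi univ S) :=
      h1.trans (mul_le_mul_left h3 _)
    have h5 := (hWG m hm a fun i => ⟨ha0 i, ha1 i⟩).2.2 C1 (t / C1) hC11 htC
    rw [mul_div_cancel₀ _ hC10.ne'] at h5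
    have h6 : Measure.pi P (Bs ∩ Set.pi univ S) ≤
        unif volume (prodBody K) (prodBody K ∩ (Bs ∩ Set.pi univ S)) := by
      have h7 : Measure.pi P = unif volume (prodBody K) := hunif.symm
      rw [h7]
      have h8 : Bs ∩ Set.pi univ S ⊆ (prodBody K)ᶜ ∪ (prodBody K ∩ (Bs ∩ Set.pi univ S)) := by
        intro z hz
        by_cases hzK : z ∈ prodBody K
        · exact Or.inr ⟨hzK, hz⟩
        · exact Or.inl hzK
      refine (measure_mono h8).trans ((measure_union_le _ _).trans ?_)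
      rw [hLnull, zero_add]
    refine le_trans ?_ h6
    have hc0t : ENNReal.ofReal c0 ≠ ⊤ := ENNReal.ofReal_ne_top
    have h9 : ENNReal.ofReal (c0 ^ m * c0 ^ m / C1) =
        (ENNReal.ofReal c0) ^ m * ENNReal.ofReal (c0 ^ m) * (ENNReal.ofReal C1)⁻¹ := by
      rw [ENNReal.ofReal_div_of_pos hC10, ENNReal.ofReal_mul (by positivity),
        ENNReal.ofReal_pow hc0p.le, div_eq_mul_inv]
    have hC1e : ENNReal.ofReal C1 ≠ 0 := by
      rw [Ne, ENNReal.ofReal_eq_zero, not_le]; exact hC10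
    calc ENNReal.ofReal (c0 ^ m * c0 ^ m / C1) * Wf a t
        ≤ ENNReal.ofReal (c0 ^ m * c0 ^ m / C1) * (ENNReal.ofReal C1 * Wf a (t / C1)) :=
          mul_le_mul_right h5 _
      _ = (ENNReal.ofReal c0) ^ m * (ENNReal.ofReal (c0 ^ m) * Wf a (t / C1)) *
          ((ENNReal.ofReal C1)⁻¹ * ENNReal.ofReal C1) := by rw [h9]; ring
      _ = (ENNReal.ofReal c0) ^ m * (ENNReal.ofReal (c0 ^ m) * Wf a (t / C1)) := by
          rw [ENNReal.inv_mul_cancel hC1e ENNReal.ofReal_ne_top, mul_one]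
      _ ≤ (ENNReal.ofReal c0) ^ m *
          (((ENNReal.ofReal c0)⁻¹) ^ m * Measure.pi P (Bs ∩ Set.pi univ S)) :=
          mul_le_mul_right h4 _
      _ = Measure.pi P (Bs ∩ Set.pi univ S) := by
          rw [← mul_assoc, ← mul_pow, ENNReal.mul_inv_cancel hc0e hc0t, one_pow, one_mul]

end Pool.Agent.W800.RP.PL
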