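import Pool.Agent.W712.RP.Stm

set_option autoImplicit false

namespace Pool.Agent.W800.RP

open MeasureTheory Set Filter Topology
open scoped ENNReal
open Pool.Agent.W712.RP

variable {k : ℕ}

abbrev EE (k : ℕ) : Type := EuclideanSpace ℝ (Fin k)

/-- the affine map -/
noncomputable def ph (x0 : EE k) (r : ℝ) (w : EE k) : EE k := x0 + r • w

theorem mac_pre (K : Set (EE k)) (x0 : EE k) (r : ℝ) (w : EE k) :
    Mac (ph x0 r ⁻¹' K) w 1 = ph x0 r ⁻¹' (Mac K (ph x0 r w) 1) := by
  ext y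
  simp only [Mac, mem_ofPred_eq, mem_preimage, ph, inv_one, one_smul]
  have e1 : x0 + r • (w + (y - w)) = x0 + r • w + (x0 + r • y - (x0 + r • w)) := by
    rw [add_sub_add_left_eq_sub, smul_add, smul_sub]
    abel
  have e2 : x0 + r • (w - (y - w)) = x0 + r • w - (x0 + r • y - (x0 + r • w)) := by
    rw [add_sub_add_left_eq_sub, smul_sub, smul_sub]
    abel
  rw [e1, e2]

theorem vol_pre (A : Set (EE k)) (x0 : EE k) (r : ℝ) (hr : 0 < r) :
    volume (ph x0 r ⁻¹' A) = ENNReal.ofReal ((r ^ k)⁻¹) * volume A := by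
  have h1 : ph x0 r ⁻¹' A = (fun w => r • w) ⁻¹' ((fun w => x0 + w) ⁻¹' A) := rfl
  rw [h1, Measure.addHaar_preimage_smul _ hr.ne', measure_preimage_add, finrank_euclideanSpace,
    Fintype.card_fin, abs_of_pos (by positivity)]

theorem body_pre (K : Set (EE k)) (hK : Body K) (x0 : EE k) (r : ℝ) (hr : 0 < r) :
    Body (ph x0 r ⁻¹' K) := by
  let e : EE k ≃ₜ EE k := (Homeomorph.smulOfNeZero r hr.ne').trans (Homeomorph.addLeft x0)
  have he : ∀ w, e w = ph x0 r w := fun w => rfl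
  have he' : ph x0 r ⁻¹' K = e ⁻¹' K := rfl
  refine ⟨?_, ?_, ?_⟩
  · intro a ha b hb s t hs ht hst
    have h1 := hK.convex ha hb hs ht hst
    simp only [mem_preimage, ph] at h1 ⊢
    convert h1 using 1
    rw [smul_add, smul_add, smul_add, smul_comm r s, smul_comm r t]
    have : s • x0 + t • x0 = x0 := by rw [← add_smul, hst, one_smul]
    calc x0 + (s • r • a + t • r • b) = (s • x0 + t • x0) + (s • r • a + t • r • b) := by rw [this]
      _ = _ := by abel
  · rw [he']
    exact e.isCompact_preimage.2 hK.compact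
  · rw [he', ← e.preimage_interior]
    obtain ⟨x, hx⟩ := hK.interior_nonempty
    exact ⟨e.symm x, by simpa using hx⟩

theorem mac_sub (K : Set (EE k)) (z : EE k) : Mac K z 1 ⊆ K := by
  intro y hy
  have := hy.1
  simpa using this

theorem uu : S_U6 → S_U := by
  intro h6 k hk K hK
  obtain ⟨x0, hx0⟩ := hK.interior_nonempty
  obtain ⟨r, hr, hball⟩ := Metric.nhds_basis_closedBall.mem_iff.1 (mem_interior_iff_mem_nhds.1 hx0)
  have hK' := body_pre K hK x0 r hr
  have hb : Metric.closedBall (0 : EE k) 1 ⊆ ph x0 r ⁻¹' K := by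
    intro w hw
    apply hball
    rw [mem_closedBall_zero_iff] at hw
    rw [Metric.mem_closedBall, ph, dist_eq_norm, add_sub_cancel_left, norm_smul, Real.norm_eq_abs,
      abs_of_pos hr]
    nlinarith
  obtain ⟨C, hC⟩ := h6 k hk _ hK' hb
  have hKm : MeasurableSet K := hK.compact.isClosed.measurableSet
  have hKt : volume K ≠ ⊤ := hK.compact.measure_lt_top.ne
  have hK0 : volume K ≠ 0 := ((isOpen_interior.measure_pos volume hK.interior_nonempty).trans_le (measure_mono interior_subset)).ne'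
  set V := (volume K).toReal with hV
  have hV0 : 0 < V := ENNReal.toReal_pos hK0 hKt
  set κ := (r ^ k)⁻¹ with hκ
  have hκ0 : 0 < κ := by positivity
  set e := 2 / ((k : ℝ) + 1) with he
  refine ⟨max 1 (V⁻¹ * κ⁻¹ * C * (κ * V) ^ e), le_max_left _ _, fun s hs => ?_⟩
  have hsub : ∀ z, (macP volume K z).toReal = V⁻¹ * (volume (Mac K z 1)).toReal := by
    intro z
    unfold macP unif
    rw [Measure.smul_apply, Measure.restrict_apply' hKm, inter_eq_left.2 (mac_sub K z), smul_eq_mul,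
      ENNReal.toReal_mul, ENNReal.toReal_inv]
  have hm : ∀ w, (volume (Mac (ph x0 r ⁻¹' K) w 1)).toReal =
      κ * (volume (Mac K (ph x0 r w) 1)).toReal := by
    intro w
    rw [mac_pre, vol_pre _ _ _ hr, ENNReal.toReal_mul, ENNReal.toReal_ofReal hκ0.le]
  have h1 : unif volume K {z | (macP volume K z).toReal ≤ s} =
      (volume K)⁻¹ * volume ({z | (macP volume K z).toReal ≤ s} ∩ K) := by
    unfold unif
    rw [Measure.smul_apply, Measure.restrict_apply' hKm, smul_eq_mul]
  set A := {z | (macP volume K z).toReal ≤ s} ∩ K with hA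
  have hAt : volume A ≠ ⊤ := measure_ne_top_of_subset inter_subset_right hKt
  have h2 : ph x0 r ⁻¹' A = {w | w ∈ ph x0 r ⁻¹' K ∧
      (volume (Mac (ph x0 r ⁻¹' K) w 1)).toReal ≤ κ * V * s} := by
    ext w
    simp only [hA, mem_preimage, mem_inter_iff, mem_ofPred_eq]
    rw [hsub, hm, and_comm]
    refine and_congr_right fun _ => ?_
    rw [mul_assoc, mul_le_mul_iff_right₀ hκ0, inv_mul_le_iff₀ hV0]
  have h3 := hC (κ * V * s) (by positivity)
  rw [← h2, vol_pre _ _ _ hr, ENNReal.toReal_mul, ENNReal.toReal_ofReal hκ0.le,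
    Real.mul_rpow (by positivity) hs.le] at h3
  have h4 : (volume A).toReal ≤ κ⁻¹ * (C * ((κ * V) ^ e * s ^ e)) := by
    rw [inv_mul_eq_div, le_div_iff₀ hκ0, mul_comm]
    exact h3
  rw [h1, ← ENNReal.ofReal_toReal hAt, ← ENNReal.ofReal_toReal (ENNReal.inv_ne_top.2 hK0),
    ENNReal.toReal_inv, ← ENNReal.ofReal_mul (by positivity)]
  refine ENNReal.ofReal_le_ofReal ?_
  have h5 : 0 < s ^ e := Real.rpow_pos_of_pos hs e
  calc V⁻¹ * (volume A).toReal ≤ V⁻¹ * (κ⁻¹ * (C * ((κ * V) ^ e * s ^ e))) :=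
        mul_le_mul_of_nonneg_left h4 (by positivity)
    _ = (V⁻¹ * κ⁻¹ * C * (κ * V) ^ e) * s ^ e := by ring
    _ ≤ max 1 (V⁻¹ * κ⁻¹ * C * (κ * V) ^ e) * s ^ e :=
        mul_le_mul_of_nonneg_right (le_max_right _ _) h5.le

end Pool.Agent.W800.RP
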